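import Pool.Agent.Lib.MP_7fcda1_ag.Main

/-! Projective varieties dominated by a globally F-regular variety. -/

open scoped IntermediateField Polynomial WithZero
open Module

set_option linter.style.haveILetI false

noncomputable section

universe u

namespace Pool.Agent.Lib.MP_7fcda1_ag.FS

open AlgebraicGeometry CategoryTheory

attribute [local instance] MvPolynomial.gradedAlgebra

theorem jacobson {k : Type u} [Field k] {X : Scheme.{u}} {s : X ⟶ Spec (.of k)}
    (hp : IsProjective s) : JacobsonSpace X := by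
  obtain ⟨n, ι, hι, rfl⟩ := hp
  have h1 : Algebra.FiniteType (MvPolynomial.homogeneousSubmodule (Fin (n + 1)) k 0)
      (MvPolynomial (Fin (n + 1)) k) :=
    have : IsScalarTower k (MvPolynomial.homogeneousSubmodule (Fin (n + 1)) k 0)
      (MvPolynomial (Fin (n + 1)) k) := IsScalarTower.of_algebraMap_eq (R := k)
        (S := MvPolynomial.homogeneousSubmodule (Fin (n + 1)) k 0) fun _ => rfl
    Algebra.FiniteType.of_restrictScalars_finiteType k _ _
  have h2 : IsClosedImmersion (Spec.map (CommRingCat.ofHom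
      (algebraMap k (MvPolynomial.homogeneousSubmodule (Fin (n + 1)) k 0)))) := by
    refine IsClosedImmersion.spec_of_surjective _ ?_
    rintro ⟨f, hf⟩
    refine ⟨f.coeff 0, Subtype.ext ?_⟩
    exact (MvPolynomial.totalDegree_eq_zero_iff_eq_C.1
      (Nat.le_zero.1 (MvPolynomial.IsHomogeneous.totalDegree_le hf))).symm
  exact LocallyOfFiniteType.jacobsonSpace (ι ≫ Proj.toSpecZero _ ≫ Spec.map (CommRingCat.ofHom
    (algebraMap k (MvPolynomial.homogeneousSubmodule (Fin (n + 1)) k 0))))

/-- A dominant rational map embeds the function fields. -/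
theorem exists_hom {S X Y : Scheme.{u}} [IsIntegral X] [IsIntegral Y] {s : X ⟶ S} {t : Y ⟶ S}
    (f : X.RationalMap Y) [f.IsDominant] (hf : f.compHom t = s.toRationalMap) :
    ∃ ψ : Y.functionField ⟶ X.functionField,
      Spec.map ψ ≫ Y.fromSpecStalk (genericPoint Y) ≫ t = X.fromSpecStalk (genericPoint X) ≫ s := by
  obtain ⟨g, rfl⟩ := f.exists_rep
  have : IsDominant g.hom := g.isDominant_toRationalMap_iff.1 inferInstance
  have h1 : g.fromFunctionField ≫ t = X.fromSpecStalk (genericPoint X) ≫ s := by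
    have := congrArg Scheme.RationalMap.fromFunctionField hf
    rw [← Scheme.RationalMap.compHom_toRationalMap,
      Scheme.RationalMap.fromFunctionField_toRationalMap,
      Scheme.RationalMap.fromFunctionField_toRationalMap] at this
    exact (g.fromSpecStalkOfMem_compHom t _ _).symm.trans
      (this.trans (Scheme.PartialMap.fromSpecStalkOfMem_toPartialMap s _))
  have h2 : ∀ y, g.fromFunctionField (IsLocalRing.closedPoint X.functionField) = y →
      ∃ ψ : Y.presheaf.stalk y ⟶ X.functionField,
        Spec.map ψ ≫ Y.fromSpecStalk y = g.fromFunctionField := by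
    rintro _ rfl
    exact ⟨_, Scheme.Spec_stalkClosedPointTo_fromSpecStalk _⟩
  obtain ⟨ψ, hψ⟩ := h2 (genericPoint Y) (by
    refine IsGenericPoint.eq (Set.eq_univ_of_univ_subset ?_) (genericPoint_spec Y)
    rw [← g.hom.denseRange.closure_range]
    refine closure_minimal ?_ isClosed_closure
    rintro _ ⟨w, rfl⟩
    refine specializes_iff_mem_closure.1 (Specializes.map ?_ g.hom.continuous)
    refine g.domain.ι.isOpenEmbedding.isInducing.specializes_iff.1 ?_
    have h3 := congr($(g.domain.fromSpecStalkOfMem_ι (genericPoint X) ((genericPoint_specializes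
      _).mem_open g.domain.2 g.dense_domain.nonempty.choose_spec)) (IsLocalRing.closedPoint _))
    exact (specializes_of_eq (h3.trans Scheme.fromSpecStalk_closedPoint)).trans
      (genericPoint_specializes _))
  exact ⟨ψ, by rw [reassoc_of% hψ, h1]⟩

theorem main {k : Type u} [Field k] [IsAlgClosed k] (p : ℕ) [Fact p.Prime] [CharP k p]
    {X Y : Scheme.{u}} [IsIntegral X] [IsLocallyNoetherian X] [IsIntegral Y]
    (s : X ⟶ Spec (.of k)) (t : Y ⟶ Spec (.of k)) (hp : IsProjective s)
    (hn : ∀ x : X, IsIntegrallyClosed (X.presheaf.stalk x)) (hG : IsGFR X p) (hq : IsProjective t)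
    (f : X.RationalMap Y) [f.IsDominant] (hf : f.compHom t = s.toRationalMap) : IsRCC t := by
  letI := algK s
  letI := algK t
  obtain ⟨ψ, hψ⟩ := exists_hom f hf
  rw [Br1.algK_spec, Br1.algK_spec, ← Spec.map_comp] at hψ
  letI := ψ.hom.toAlgebra
  haveI : IsScalarTower k Y.functionField X.functionField :=
    IsScalarTower.of_algebraMap_eq fun c => congr($(Spec.map_injective hψ).hom c).symm
  obtain ⟨N, ξ, U, i₀, hc, h₀, hgen⟩ := exists_coord hp
  obtain ⟨N', ζ, U', i₁, hc', h₀', hgen'⟩ := exists_coord hq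
  refine bridge_rcc t hc' ?_
  rcases m7 h₀' hgen' with h | ⟨J, _, Δ, I, I₀, hI₀, hnot, hR⟩
  · exact h
  exfalso
  have up : ∀ {K F : Type u} [Field K] [Field F] [Algebra k K] [Algebra k F] [Algebra K F]
      [IsScalarTower k K F] {a : K}, a ∉ (algebraMap k K).range →
        algebraMap K F a ∉ (algebraMap k F).range := by
    rintro K F _ _ _ _ _ _ a h ⟨c, hc⟩
    refine h ⟨c, (algebraMap K F).injective ?_⟩
    rw [← hc, ← IsScalarTower.algebraMap_apply]
  obtain ⟨n, x, l, hl, hx, h₁, h₂⟩ := noether h₀ hgen (up hnot)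
  haveI : CharP X.functionField p :=
    charP_of_injective_algebraMap (algebraMap k X.functionField).injective p
  have hm := bridge_gfr hc hn hG hl hx h₁ h₂
  obtain ⟨F, _, _, _, _, hF, hs, hmax⟩ := s1 hx hm
  haveI : CharP F p := charP_of_injective_algebraMap (algebraMap k F).injective p
  obtain ⟨e, g, hg, hg'⟩ := exists_root p hF (up (F := F) (up (F := X.functionField) hnot))
  obtain ⟨D, hD⟩ : ∃ D : Derivation k F F, D g ≠ 0 := by
    by_contra hcon
    push Not at hcon
    obtain ⟨b, hb⟩ := pow_of_const p hF hcon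
    exact hg' b hb
  obtain ⟨Φ, hΦ, -⟩ := exists_frame p hF (Or.inr rfl)
  obtain ⟨κ, L, _, _, _, _, j, H, hC, hP⟩ := key hF hs hmax hΦ
  obtain ⟨Ω, M, _, _, _, _, _, j', H', b, hC', hP', hb⟩ := comp hF hC hP
  obtain ⟨R, _, _, _, _, x₀, S, hS, i, hi⟩ := deform hF hΦ hC' hP' hb hD e
  obtain ⟨χ, hχ⟩ := curve hi
  have hζ : ζ ≠ 0 := fun h => by simp [h] at h₀'
  have := bb hζ hR (((hS.map χ).comp (K := X.functionField)).comp (K := Y.functionField)) I hI₀ i
  apply hχ
  simpa [← hg] using this

end Pool.Agent.Lib.MP_7fcda1_ag.FS
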